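import Pool.Agent.TH603.Chi.Chain

set_option autoImplicit false

open MeasureTheory Filter Topology

namespace Pool.Agent.TH603.Chi

theorem exists_phase (z : ℂ) : ∃ θ : ℂ, ‖θ‖ = 1 ∧ θ * z = (‖z‖ : ℂ) := by
  rcases eq_or_ne z 0 with h | h
  · exact ⟨1, by simp, by simp [h]⟩
  · refine ⟨(starRingEnd ℂ) z / ‖z‖, ?_, ?_⟩
    · rw [norm_div, RCLike.norm_conj, Complex.norm_real, norm_norm, div_self (norm_ne_zero_iff.2 h)]
    · have h1 : (‖z‖ : ℂ) ≠ 0 := by exact_mod_cast norm_ne_zero_iff.2 h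
      rw [div_mul_eq_mul_div, div_eq_iff h1, mul_comm, Complex.mul_conj, Complex.normSq_eq_norm_sq]
      push_cast; ring

theorem norm_ex (t x : ℝ) : ‖ex t x‖ = 1 := norm_e _

theorem chain_bound {Ω : Set ℝ} {F : ℝ → ℂ} {C : ℝ} (hF : HB Ω F C)
    (hint : LocallyIntegrable F volume) (a b : ℕ → ℕ) (hab : ∀ n, a n < b n)
    (hba : ∀ n, b n ≤ a (n + 1)) (x : ℕ → ℝ)
    (hx : ∀ n, ∀ z, |z - x n| ≤ (1 / 3) ^ (a n) → z ∈ Ω) (N : ℕ) :
    ∑ n ∈ Finset.range N, ‖Fk F (a n) (x n) - Fk F (b n) (x n)‖ ≤ 17 * C := by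
  classical
  set M := b N with hM
  have hbm : Monotone b := monotone_nat_of_le_succ fun n => ((hba n).trans (hab (n + 1)).le)
  have ham : ∀ n, a n ≤ b n := fun n => (hab n).le
  have hodd : ∀ k, ∃ m : ℕ, 2 * m + 1 = 3 ^ (M - k) := by
    intro k
    have : Odd (3 ^ (M - k)) := Odd.pow (by decide)
    obtain ⟨m, hm⟩ := this
    exact ⟨m, hm.symm⟩
  choose mu hmu using hodd
  set h : ℝ := 2 / 3 ^ M with hh
  have hh0 : 0 < h := by positivity
  have hbM : ∀ n, n < N → b n ≤ M := fun n hn => hbm hn.le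
  have k1 : ∀ n < N, 3 * (2 * mu (b n) + 1) ≤ 2 * mu (a n) + 1 := by
    intro n hn
    rw [hmu, hmu]
    have h1 := hab n
    have h2 := hbM n hn
    calc 3 * 3 ^ (M - b n) = 3 ^ (M - b n + 1) := by ring
      _ ≤ 3 ^ (M - a n) := Nat.pow_le_pow_right (by norm_num) (by omega)
  have k2 : ∀ n < N, mu (a (n + 1)) ≤ mu (b n) := by
    intro n _
    have h1 := hmu (a (n + 1))
    have h2 := hmu (b n)
    have h3 : 3 ^ (M - a (n + 1)) ≤ 3 ^ (M - b n) :=
      Nat.pow_le_pow_right (by norm_num) (by have := hba n; omega)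
    omega
  have hrad : ∀ n < N, ((mu (a n) : ℝ)) * h + h / 2 = (1 / 3) ^ (a n) := by
    intro n hn
    have h1 : ((2 * mu (a n) + 1 : ℕ) : ℝ) = ((3 ^ (M - a n) : ℕ) : ℝ) := by rw [hmu]
    push_cast at h1
    have h2 : a n ≤ M := (ham n).trans (hbM n hn)
    rw [pow_sub₀ _ (by norm_num) h2] at h1
    have h3 : (mu (a n) : ℝ) * h + h / 2 = (2 * mu (a n) + 1) * (h / 2) := by ring
    rw [h3, h1, hh, one_div, inv_pow]
    field_simp
  have hphase : ∀ n, ∃ θ : ℂ, ‖θ‖ = 1 ∧ θ * (Fk F (a n) (x n) - Fk F (b n) (x n)) =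
      (‖Fk F (a n) (x n) - Fk F (b n) (x n)‖ : ℂ) := fun n => exists_phase _
  choose θ hθ1 hθ2 using hphase
  -- the combination
  let c : ℝ → ℝ →₀ ℂ := fun s => ∑ n ∈ Finset.range N,
    θ n • (Av (mu (a n)) h (x n + s) - Av (mu (b n)) h (x n + s))
  have hcs : ∀ s, |s| ≤ h / 2 → c s ∈ Finsupp.supported ℂ ℂ Ω := by
    intro s hs
    refine Submodule.sum_mem _ fun n hn => Submodule.smul_mem _ _ (Submodule.sub_mem _ ?_ ?_)
    · apply Av_supp _ hh0.le
      intro z hz
      apply hx n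
      have h1 := hrad n (Finset.mem_range.1 hn)
      have : z - x n = (z - (x n + s)) + s := by ring
      rw [this]
      refine (abs_add_le _ _).trans ?_
      linarith
    · apply Av_supp _ hh0.le
      intro z hz
      apply hx n
      have h1 := hrad n (Finset.mem_range.1 hn)
      have h2 := k1 n (Finset.mem_range.1 hn)
      have h3 : (mu (b n) : ℝ) ≤ mu (a n) := by
        have : mu (b n) ≤ mu (a n) := by omega
        exact_mod_cast this
      have h4 : (mu (b n) : ℝ) * h ≤ mu (a n) * h := by gcongr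
      have : z - x n = (z - (x n + s)) + s := by ring
      rw [this]
      refine (abs_add_le _ _).trans ?_
      linarith
  have hct : ∀ s t, ‖Finsupp.linearCombination ℂ (ex t) (c s)‖ ≤ 17 := by
    intro s t
    simp only [c, map_sum, map_smul, map_sub, lin_Av_ex, smul_eq_mul]
    refine (norm_sum_le _ _).trans ?_
    refine le_trans (Finset.sum_le_sum fun n _ => ?_) (chain_kernel k1 k2 hh0 t)
    rw [← mul_sub, norm_mul, norm_mul, hθ1, norm_ex, one_mul, one_mul]
  have hcF : ∀ s, |s| ≤ h / 2 → ‖Finsupp.linearCombination ℂ F (c s)‖ ≤ C * 17 :=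
    fun s hs => hF (c s) (hcs s hs) 17 (hct s)
  -- integrate
  have hI : ∫ s in (-(h / 2))..(h / 2), Finsupp.linearCombination ℂ F (c s) =
      ((h * ∑ n ∈ Finset.range N, ‖Fk F (a n) (x n) - Fk F (b n) (x n)‖ : ℝ) : ℂ) := by
    simp only [c, map_sum, map_smul, map_sub, smul_eq_mul]
    rw [intervalIntegral.integral_finsetSum]
    · push_cast
      rw [Finset.mul_sum]
      refine Finset.sum_congr rfl fun n hn => ?_
      have hn' := Finset.mem_range.1 hn
      rw [intervalIntegral.integral_const_mul, intervalIntegral.integral_sub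
        (ii_Av hint _ _ _ _ _) (ii_Av hint _ _ _ _ _),
        integral_Av_Fk hint ((ham n).trans (hbM n hn')) (hmu _),
        integral_Av_Fk hint (hbM n hn') (hmu _), ← mul_sub, mul_left_comm, hθ2]
    · intro n _
      exact ((ii_Av hint _ _ _ _ _).sub (ii_Av hint _ _ _ _ _)).const_mul _
  have hn : ‖∫ s in (-(h / 2))..(h / 2), Finsupp.linearCombination ℂ F (c s)‖ ≤
      (C * 17) * |h / 2 - -(h / 2)| := by
    apply intervalIntegral.norm_integral_le_of_norm_le_const
    intro s hs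
    apply hcF
    rw [Set.uIoc_of_le (by linarith)] at hs
    rw [abs_le]
    exact ⟨hs.1.le, hs.2⟩
  rw [hI, Complex.norm_real, Real.norm_of_nonneg (by positivity)] at hn
  have e : |h / 2 - -(h / 2)| = h := by
    rw [abs_of_pos] <;> linarith
  rw [e] at hn
  have : h * (∑ n ∈ Finset.range N, ‖Fk F (a n) (x n) - Fk F (b n) (x n)‖) ≤ h * (17 * C) := by
    linarith
  exact le_of_mul_le_mul_left this hh0

/-- the points of `Ω` at distance more than `3 ^ (-k)` from the complement -/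
def Om (Ω : Set ℝ) (k : ℕ) : Set ℝ := {x | ∀ z, |z - x| ≤ (1 / 3) ^ k → z ∈ Ω}

theorem Om_mono (Ω : Set ℝ) {k l : ℕ} (h : k ≤ l) : Om Ω k ⊆ Om Ω l := by
  intro x hx z hz
  apply hx z
  refine hz.trans ?_
  exact pow_le_pow_of_le_one (by norm_num) (by norm_num) h

theorem cauchy {Ω : Set ℝ} {F : ℝ → ℂ} {C : ℝ} (hF : HB Ω F C)
    (hint : LocallyIntegrable F volume) (k₀ : ℕ) :
    UniformCauchySeqOn (fun k => Fk F k) atTop (Om Ω k₀) := by
  rw [Metric.uniformCauchySeqOn_iff]
  intro ε hε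
  by_contra hcon
  push Not at hcon
  -- produce pairs
  have step : ∀ K : ℕ, ∃ a b : ℕ, ∃ x : ℝ, K ≤ a ∧ a < b ∧ x ∈ Om Ω k₀ ∧
      ε ≤ ‖Fk F a x - Fk F b x‖ := by
    intro K
    obtain ⟨m, hm, n, hn, x, hx, h1⟩ := hcon K
    have hne : m ≠ n := by
      rintro rfl
      rw [dist_self] at h1
      linarith
    rcases lt_or_gt_of_ne hne with h2 | h2
    · exact ⟨m, n, x, hm, h2, hx, by rw [← dist_eq_norm]; exact h1⟩
    · exact ⟨n, m, x, hn, h2, hx, by rw [← dist_eq_norm, dist_comm]; exact h1⟩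
  choose A B X h1 h2 h3 h4 using step
  let κ : ℕ → ℕ := fun n => Nat.rec k₀ (fun _ k => B k) n
  have hκ : ∀ n, κ (n + 1) = B (κ n) := fun n => rfl
  have hκ0 : ∀ n, k₀ ≤ κ n := by
    intro n
    induction n with
    | zero => exact le_rfl
    | succ n ih => rw [hκ]; exact ih.trans ((h1 _).trans (h2 _).le)
  obtain ⟨N, hN⟩ := exists_nat_gt (17 * C / ε)
  have hch := chain_bound hF hint (fun n => A (κ n)) (fun n => B (κ n)) (fun n => h2 _)
    (fun n => by rw [← hκ]; exact h1 _) (fun n => X (κ n))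
    (fun n => Om_mono Ω ((hκ0 n).trans (h1 _)) (h3 (κ n))) N
  have h5 : (N : ℝ) * ε ≤ ∑ n ∈ Finset.range N,
      ‖Fk F (A (κ n)) (X (κ n)) - Fk F (B (κ n)) (X (κ n))‖ := by
    calc (N : ℝ) * ε = ∑ n ∈ Finset.range N, ε := by simp
      _ ≤ _ := Finset.sum_le_sum fun n _ => h4 _
  rw [div_lt_iff₀ hε] at hN
  linarith

theorem continuous_Fk {F : ℝ → ℂ} (hint : LocallyIntegrable F volume) (k : ℕ) :
    Continuous (Fk F k) := by
  have hP : Continuous fun y : ℝ => ∫ z in (0 : ℝ)..y, F z :=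
    intervalIntegral.continuous_primitive (fun a b => ii hint a b) 0
  have e : ∀ x, Fk F k x = ((3 : ℝ) ^ k / 2 : ℝ) *
      ((∫ z in (0 : ℝ)..(x + (1 / 3) ^ k), F z) - ∫ z in (0 : ℝ)..(x - (1 / 3) ^ k), F z) := by
    intro x
    unfold Fk
    rw [intervalIntegral.integral_interval_sub_left (ii hint _ _) (ii hint _ _)]
  have : Fk F k = fun x => ((3 : ℝ) ^ k / 2 : ℝ) *
      ((∫ z in (0 : ℝ)..(x + (1 / 3) ^ k), F z) - ∫ z in (0 : ℝ)..(x - (1 / 3) ^ k), F z) :=
    funext e
  rw [this]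
  exact continuous_const.mul ((hP.comp (by fun_prop)).sub (hP.comp (by fun_prop)))

theorem ae_tendsto_Fk {F : ℝ → ℂ} (hint : LocallyIntegrable F volume) :
    ∀ᵐ x : ℝ, Tendsto (fun k => Fk F k x) atTop (𝓝 (F x)) := by
  filter_upwards [LocallyIntegrable.ae_hasDerivAt_integral hint] with x hx
  have hd := hx x
  have hs := hasDerivAt_iff_tendsto_slope_zero.1 hd
  -- both one-sided slopes
  have hz : Tendsto (fun k : ℕ => ((1 : ℝ) / 3) ^ k) atTop (𝓝 0) :=
    tendsto_pow_atTop_nhds_zero_of_lt_one (by norm_num) (by norm_num)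
  have hz1 : Tendsto (fun k : ℕ => ((1 : ℝ) / 3) ^ k) atTop (𝓝[≠] 0) :=
    tendsto_nhdsWithin_iff.2 ⟨hz, Eventually.of_forall fun k => by
      simp⟩
  have hz2 : Tendsto (fun k : ℕ => -((1 : ℝ) / 3) ^ k) atTop (𝓝[≠] 0) :=
    tendsto_nhdsWithin_iff.2 ⟨by simpa using hz.neg, Eventually.of_forall fun k => by
      simp⟩
  have l1 := hs.comp hz1
  have l2 := hs.comp hz2
  have l3 := (l1.add l2).const_mul (1 / 2 : ℂ)
  have e1 : (1 / 2 : ℂ) * (F x + F x) = F x := by ring
  rw [e1] at l3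
  refine l3.congr fun k => ?_
  simp only [Function.comp, intervalIntegral.integral_same, sub_zero, Complex.real_smul]
  unfold Fk
  have h3 : ∫ y in (x - (1 / 3) ^ k)..(x + (1 / 3) ^ k), F y =
      (∫ y in x..(x + (1 / 3) ^ k), F y) - ∫ y in x..(x - (1 / 3) ^ k), F y := by
    rw [intervalIntegral.integral_interval_sub_left (ii hint _ _) (ii hint _ _)]
  rw [h3]
  have h4 : x + -(1 / 3) ^ k = x - (1 / 3 : ℝ) ^ k := by ring
  rw [h4]
  push_cast
  have h6 : (3 : ℂ) ^ k = (((1 : ℂ) / 3) ^ k)⁻¹ := by rw [one_div, inv_pow, inv_inv]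
  rw [h6, inv_neg]
  ring

/-- bounds for the averages as functionals -/
theorem Fk_bound {Ω : Set ℝ} {F : ℝ → ℂ} {C : ℝ} (hF : HB Ω F C)
    (hint : LocallyIntegrable F volume) (k : ℕ) (c : ℝ →₀ ℂ)
    (hc : c ∈ Finsupp.supported ℂ ℂ (Om Ω k)) (M : ℝ)
    (hM : ∀ t : ℝ, ‖Finsupp.linearCombination ℂ (ex t) c‖ ≤ M) :
    ‖Finsupp.linearCombination ℂ (Fk F k) c‖ ≤ C * M := by
  classical
  set r : ℝ := (1 / 3) ^ k with hr
  have hr0 : 0 < r := by positivity
  have hsh : ∀ s, |s| ≤ r → ‖∑ x ∈ c.support, c x * F (x + s)‖ ≤ C * M := by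
    intro s hs
    have h1 := hF (∑ x ∈ c.support, Finsupp.single (x + s) (c x)) ?_ M ?_
    · simpa only [map_sum, Finsupp.linearCombination_single, smul_eq_mul] using h1
    · refine Submodule.sum_mem _ fun x hx => ?_
      apply Finsupp.single_mem_supported
      have hx' : x ∈ Om Ω k := (Finsupp.mem_supported ℂ c).1 hc hx
      apply hx'
      rw [add_sub_cancel_left]
      exact hs
    · intro t
      simp only [map_sum, Finsupp.linearCombination_single, smul_eq_mul]
      have h2 := hM t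
      rw [Finsupp.linearCombination_apply, Finsupp.sum] at h2
      have e : ∑ x ∈ c.support, c x * ex t (x + s) =
          ex t s * ∑ x ∈ c.support, c x • ex t x := by
        rw [Finset.mul_sum]
        refine Finset.sum_congr rfl fun x _ => ?_
        have : ex t (x + s) = ex t s * ex t x := by
          unfold ex
          rw [← Complex.exp_add]
          congr 1
          push_cast
          ring
        rw [this, smul_eq_mul]
        ring
      rw [e, norm_mul, norm_ex, one_mul]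
      exact h2
  have hI : ∫ s in (-r)..r, ∑ x ∈ c.support, c x * F (x + s) =
      (2 * r : ℝ) * Finsupp.linearCombination ℂ (Fk F k) c := by
    rw [intervalIntegral.integral_finsetSum (fun x _ => (ii_add hint _ _ _).const_mul _),
      Finsupp.linearCombination_apply, Finsupp.sum, Finset.mul_sum]
    refine Finset.sum_congr rfl fun x _ => ?_
    rw [intervalIntegral.integral_const_mul, intervalIntegral.integral_comp_add_left F]
    unfold Fk
    rw [smul_eq_mul, mul_left_comm]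
    congr 1
    have e1 : x + -r = x - (1 / 3) ^ k := by rw [hr]; ring
    rw [e1, ← hr, ← mul_assoc, ← Complex.ofReal_mul]
    have e2 : 2 * r * (3 ^ k / 2) = 1 := by
      rw [hr, one_div, inv_pow]; field_simp
    rw [e2, Complex.ofReal_one, one_mul]
  have hn : ‖∫ s in (-r)..r, ∑ x ∈ c.support, c x * F (x + s)‖ ≤ (C * M) * |r - -r| := by
    apply intervalIntegral.norm_integral_le_of_norm_le_const
    intro s hs
    apply hsh
    rw [Set.uIoc_of_le (by linarith)] at hs
    rw [abs_le]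
    exact ⟨hs.1.le, hs.2⟩
  have e : |r - -r| = 2 * r := by
    rw [abs_of_pos] <;> linarith
  rw [hI, e, norm_mul, Complex.norm_real, Real.norm_of_nonneg (by positivity)] at hn
  have : 2 * r * ‖Finsupp.linearCombination ℂ (Fk F k) c‖ ≤ 2 * r * (C * M) := by linarith
  exact le_of_mul_le_mul_left this (by positivity)

theorem Om_union {Ω : Set ℝ} (hΩ : IsOpen Ω) {x : ℝ} (hx : x ∈ Ω) :
    ∃ k, Om Ω k ∈ 𝓝 x := by
  obtain ⟨ε, hε, hball⟩ := Metric.isOpen_iff.1 hΩ x hx
  have hz : Tendsto (fun k : ℕ => ((1 : ℝ) / 3) ^ k) atTop (𝓝 0) :=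
    tendsto_pow_atTop_nhds_zero_of_lt_one (by norm_num) (by norm_num)
  obtain ⟨k, hk⟩ := (hz.eventually (gt_mem_nhds (by positivity : (0 : ℝ) < ε / 2))).exists
  refine ⟨k, Metric.mem_nhds_iff.2 ⟨ε / 2, by positivity, fun y hy z hz => ?_⟩⟩
  apply hball
  rw [Metric.mem_ball, Real.dist_eq] at *
  have : z - x = (z - y) + (y - x) := by ring
  rw [this]
  refine (abs_add_le _ _).trans_lt ?_
  linarith

/-- **Main theorem** for an open set of frequencies. -/
theorem main {Ω : Set ℝ} (hΩ : IsOpen Ω) {F : ℝ → ℂ} {C : ℝ} (hF : HB Ω F C)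
    (hint : LocallyIntegrable F volume) :
    ∃ G : ℝ → ℂ, ContinuousOn G Ω ∧ HB Ω G C ∧ ∀ᵐ x : ℝ, x ∈ Ω → F x = G x := by
  classical
  have hlim : ∀ x ∈ Ω, ∃ y, Tendsto (fun k => Fk F k x) atTop (𝓝 y) := by
    intro x hx
    obtain ⟨k, hk⟩ := Om_union hΩ hx
    have h1 := (cauchy hF hint k).cauchySeq (mem_of_mem_nhds hk)
    exact cauchySeq_tendsto_of_complete h1
  let G : ℝ → ℂ := fun x => if hx : x ∈ Ω then (hlim x hx).choose else 0
  have hG : ∀ x ∈ Ω, Tendsto (fun k => Fk F k x) atTop (𝓝 (G x)) := by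
    intro x hx
    simp only [G, dif_pos hx]
    exact (hlim x hx).choose_spec
  have hOmsub : ∀ k, Om Ω k ⊆ Ω := by
    intro k x hx
    apply hx x
    rw [sub_self, abs_zero]
    positivity
  refine ⟨G, ?_, ?_, ?_⟩
  · intro x hx
    obtain ⟨k, hk⟩ := Om_union hΩ hx
    have h1 : TendstoUniformlyOn (fun k => Fk F k) G atTop (Om Ω k) :=
      (cauchy hF hint k).tendstoUniformlyOn_of_tendsto fun y hy => hG y (hOmsub k hy)
    have h2 : ContinuousOn G (Om Ω k) :=
      h1.continuousOn (Frequently.of_forall fun n => (continuous_Fk hint n).continuousOn)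
    exact (h2.continuousAt hk).continuousWithinAt
  · intro c hc M hM
    have h1 : Tendsto (fun k => Finsupp.linearCombination ℂ (Fk F k) c) atTop
        (𝓝 (Finsupp.linearCombination ℂ G c)) := by
      simp only [Finsupp.linearCombination_apply, Finsupp.sum]
      refine tendsto_finsetSum _ fun x hx => ?_
      exact (hG x ((Finsupp.mem_supported ℂ c).1 hc hx)).const_smul _
    have h2 : ∀ᶠ k in atTop, c ∈ Finsupp.supported ℂ ℂ (Om Ω k) := by
      have h3 : ∀ x ∈ c.support, ∀ᶠ k in atTop, x ∈ Om Ω k := by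
        intro x hx
        obtain ⟨k, hk⟩ := Om_union hΩ ((Finsupp.mem_supported ℂ c).1 hc hx)
        filter_upwards [eventually_ge_atTop k] with l hl
        exact Om_mono Ω hl (mem_of_mem_nhds hk)
      have h4 := (Filter.eventually_all_finset c.support).2 h3
      filter_upwards [h4] with k hk
      exact (Finsupp.mem_supported ℂ c).2 fun x hx => hk x hx
    refine le_of_tendsto h1.norm ?_
    filter_upwards [h2] with k hk
    exact Fk_bound hF hint k c hk M hM
  · filter_upwards [ae_tendsto_Fk hint] with x hx hxΩ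
    exact tendsto_nhds_unique hx (hG x hxΩ)

end Pool.Agent.TH603.Chi
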