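import Pool.Agent.TH603.Chi.Kernel

set_option autoImplicit false

open MeasureTheory Filter Topology

namespace Pool.Agent.TH603.Chi

/-- the exponential with frequency `x` at time `t` -/
noncomputable def ex (t x : ℝ) : ℂ := Complex.exp (Complex.I * ((x * t : ℝ) : ℂ))

/-- `F` defines a functional of norm at most `C` on the trigonometric polynomials with
frequencies in `Ω` -/
def HB (Ω : Set ℝ) (F : ℝ → ℂ) (C : ℝ) : Prop :=
  ∀ c ∈ Finsupp.supported ℂ ℂ Ω, ∀ M : ℝ,
    (∀ t : ℝ, ‖Finsupp.linearCombination ℂ (ex t) c‖ ≤ M) →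
      ‖Finsupp.linearCombination ℂ F c‖ ≤ C * M

/-- sums of the kernel differences along a chain of scales -/
theorem chain_kernel {m m' : ℕ → ℕ} {N : ℕ}
    (h1 : ∀ n < N, 3 * (2 * m' n + 1) ≤ 2 * m n + 1)
    (h2 : ∀ n < N, m (n + 1) ≤ m' n) {h : ℝ} (hh : 0 < h) (t : ℝ) :
    ∑ n ∈ Finset.range N, ‖D (m n) h t - D (m' n) h t‖ ≤ 17 := by
  -- reduce to a small `t`
  set p : ℝ := 2 * Real.pi / h with hp
  have hpi := Real.pi_pos
  have hp0 : 0 < p := by positivity
  set r : ℤ := round (t / p) with hr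
  set t' : ℝ := t - r * p with ht'
  have hsmall : |h * t'| ≤ Real.pi := by
    have h3 := abs_sub_round (t / p)
    have e : h * t' = (t / p - round (t / p)) * (h * p) := by
      rw [ht', hr]; field_simp
    have e2 : h * p = 2 * Real.pi := by rw [hp]; field_simp
    rw [e, abs_mul, e2, abs_of_pos (by positivity : (0 : ℝ) < 2 * Real.pi)]
    calc |t / p - round (t / p)| * (2 * Real.pi) ≤ 1 / 2 * (2 * Real.pi) := by gcongr
      _ = Real.pi := by ring
  have hD : ∀ k, D k h t = D k h t' := fun k => (D_period k hh.ne' t r).symm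
  simp only [hD]
  set w := |h * t'| with hw
  have hw0 : 0 ≤ w := abs_nonneg _
  have key : ∀ K ≤ N, (∑ n ∈ Finset.range K, ‖D (m n) h t' - D (m' n) h t'‖) +
      17 * Psi ((2 * m K + 1) * w) ≤ 17 := by
    intro K
    induction K with
    | zero =>
      intro _
      have := Psi_le_one (u := (2 * (m 0 : ℝ) + 1) * w) (by positivity)
      simp only [Finset.range_zero, Finset.sum_empty, zero_add]
      linarith
    | succ K ih =>
      intro hK
      have h3 := ih (by omega)
      have h4 := Q_bound hh.le hsmall (h1 K (by omega))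
      have h5 : Psi ((2 * (m (K + 1) : ℝ) + 1) * w) ≤ Psi ((2 * (m' K : ℝ) + 1) * w) := by
        apply Psi_mono (by positivity)
        have : (m (K + 1) : ℝ) ≤ m' K := by exact_mod_cast h2 K (by omega)
        gcongr
      rw [Finset.sum_range_succ]
      rw [← hw] at h4
      linarith
  have h6 := key N le_rfl
  have h7 : 0 ≤ Psi ((2 * (m N : ℝ) + 1) * w) := by unfold Psi; positivity
  linarith

/-- the average of Dirac masses -/
noncomputable def Av (m : ℕ) (h y : ℝ) : ℝ →₀ ℂ :=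
  (1 / (2 * m + 1 : ℂ)) • ∑ j ∈ Finset.range (2 * m + 1),
    Finsupp.single (y + ((j : ℝ) - m) * h) (1 : ℂ)

theorem lin_Av_ex (m : ℕ) (h y t : ℝ) :
    Finsupp.linearCombination ℂ (ex t) (Av m h y) = ex t y * D m h t := by
  unfold Av D
  rw [map_smul, map_sum, smul_eq_mul]
  simp only [Finsupp.linearCombination_single, one_smul]
  rw [mul_left_comm]
  congr 1
  rw [Finset.mul_sum]
  refine Finset.sum_congr rfl fun j _ => ?_
  unfold ex
  rw [← Complex.exp_add]
  congr 1
  push_cast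
  ring

theorem lin_Av (F : ℝ → ℂ) (m : ℕ) (h y : ℝ) :
    Finsupp.linearCombination ℂ F (Av m h y) = (1 / (2 * m + 1 : ℂ)) *
      ∑ j ∈ Finset.range (2 * m + 1), F (y + ((j : ℝ) - m) * h) := by
  unfold Av
  rw [map_smul, map_sum, smul_eq_mul]
  simp only [Finsupp.linearCombination_single, one_smul]

theorem Av_supp {Ω : Set ℝ} {m : ℕ} {h y : ℝ}
    (hΩ : ∀ z, |z - y| ≤ m * h → z ∈ Ω) (hh : 0 ≤ h) : Av m h y ∈ Finsupp.supported ℂ ℂ Ω := by
  unfold Av
  refine Submodule.smul_mem _ _ (Submodule.sum_mem _ fun j hj => ?_)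
  apply Finsupp.single_mem_supported
  apply hΩ
  have hj' : (j : ℝ) ≤ 2 * m := by
    have := Finset.mem_range.1 hj
    have h4 : j ≤ 2 * m := by omega
    exact_mod_cast h4
  have : |(j : ℝ) - m| ≤ m := by
    rw [abs_le]; constructor
    · have : (0 : ℝ) ≤ j := Nat.cast_nonneg j
      linarith
    · linarith
  rw [add_sub_cancel_left, abs_mul, abs_of_nonneg hh]
  gcongr

/-- the average of `F` over the interval of radius `3 ^ (-k)` around `x` -/
noncomputable def Fk (F : ℝ → ℂ) (k : ℕ) (x : ℝ) : ℂ :=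
  ((3 : ℝ) ^ k / 2 : ℝ) * ∫ y in (x - (1 / 3) ^ k)..(x + (1 / 3) ^ k), F y

theorem ii {F : ℝ → ℂ} (hF : LocallyIntegrable F volume) (x y : ℝ) :
    IntervalIntegrable F volume x y :=
  intervalIntegrable_iff.mpr <|
    (hF.integrableOn_isCompact isCompact_uIcc).mono_set Set.uIoc_subset_uIcc

theorem ii_add {F : ℝ → ℂ} (hF : LocallyIntegrable F volume) (d x y : ℝ) :
    IntervalIntegrable (fun s => F (d + s)) volume x y := by
  have h := (ii hF (d + x) (d + y)).comp_add_left d (by finiteness)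
  have e1 : d + x - d = x := by ring
  have e2 : d + y - d = y := by ring
  rw [e1, e2] at h
  exact h

theorem ii_Av {F : ℝ → ℂ} (hF : LocallyIntegrable F volume) (m : ℕ) (h x a b : ℝ) :
    IntervalIntegrable (fun s => Finsupp.linearCombination ℂ F (Av m h (x + s))) volume a b := by
  simp only [lin_Av]
  apply IntervalIntegrable.const_mul
  have h2 : ∀ (j : ℕ) (s : ℝ), F (x + s + ((j : ℝ) - m) * h) = F ((x + ((j : ℝ) - m) * h) + s) := by
    intro j s; congr 1; ring
  simp only [h2]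
  have := IntervalIntegrable.sum (Finset.range (2 * m + 1))
    (f := fun (j : ℕ) (s : ℝ) => F ((x + ((j : ℝ) - m) * h) + s)) (μ := volume) (a := a) (b := b)
    (fun j _ => ii_add hF _ _ _)
  have e : (fun s : ℝ => ∑ j ∈ Finset.range (2 * m + 1), F ((x + ((j : ℝ) - m) * h) + s)) =
      ∑ j ∈ Finset.range (2 * m + 1), fun s : ℝ => F ((x + ((j : ℝ) - m) * h) + s) := by
    ext s
    simp
  rw [e]
  exact this

theorem integral_Av {F : ℝ → ℂ} (hF : LocallyIntegrable F volume) (m : ℕ) (h x : ℝ) :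
    ∫ s in (-(h / 2))..(h / 2), (Finsupp.linearCombination ℂ F (Av m h (x + s))) =
      (1 / (2 * m + 1 : ℂ)) * ∫ y in (x - (m + 1 / 2) * h)..(x + (m + 1 / 2) * h), F y := by
  have h2 : ∀ (j : ℕ) (s : ℝ), F (x + s + ((j : ℝ) - m) * h) = F ((x + ((j : ℝ) - m) * h) + s) := by
    intro j s; congr 1; ring
  simp only [lin_Av, h2]
  rw [intervalIntegral.integral_const_mul]
  congr 1
  rw [intervalIntegral.integral_finsetSum (fun j _ => ii_add hF _ _ _)]
  set a : ℕ → ℝ := fun j => x + ((j : ℝ) - m) * h - h / 2 with ha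
  have h1 := intervalIntegral.sum_integral_adjacent_intervals (f := F) (μ := volume)
    (a := a) (n := 2 * m + 1) (fun k _ => ii hF _ _)
  have ea : a 0 = x - (m + 1 / 2) * h := by simp only [ha]; push_cast; ring
  have eb : a (2 * m + 1) = x + (m + 1 / 2) * h := by simp only [ha]; push_cast; ring
  rw [ea, eb] at h1
  rw [← h1]
  refine Finset.sum_congr rfl fun j _ => ?_
  rw [intervalIntegral.integral_comp_add_left F]
  congr 1
  simp only [ha]; push_cast; ring

/-- with `h = 2 * 3 ^ (-M)`, the integral of averages over `3 ^ (M - k)` points -/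
theorem integral_Av_Fk {F : ℝ → ℂ} (hF : LocallyIntegrable F volume) {M k m : ℕ} (hk : k ≤ M)
    (hm : 2 * m + 1 = 3 ^ (M - k)) (x : ℝ) :
    ∫ s in (-((2 / 3 ^ M : ℝ) / 2))..((2 / 3 ^ M : ℝ) / 2),
      (Finsupp.linearCombination ℂ F (Av m (2 / 3 ^ M) (x + s))) = (2 / 3 ^ M : ℝ) * Fk F k x := by
  rw [integral_Av hF]
  have hmR : (2 * (m : ℝ) + 1) = 3 ^ M / 3 ^ k := by
    have h1 : ((2 * m + 1 : ℕ) : ℝ) = ((3 ^ (M - k) : ℕ) : ℝ) := by rw [hm]
    push_cast at h1
    rw [h1, pow_sub₀ _ (by norm_num) hk, div_eq_mul_inv]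
  have e1 : ((m : ℝ) + 1 / 2) * (2 / 3 ^ M) = (1 / 3) ^ k := by
    have : (m : ℝ) + 1 / 2 = (3 ^ M / 3 ^ k) / 2 := by linarith
    rw [this, one_div, inv_pow]
    field_simp
  rw [e1]
  unfold Fk
  rw [← mul_assoc]
  congr 1
  have h3 : (2 * (m : ℂ) + 1) = ((3 ^ M / 3 ^ k : ℝ) : ℂ) := by
    rw [← hmR]; push_cast; ring
  rw [h3]
  push_cast
  field_simp

end Pool.Agent.TH603.Chi
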