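import Mathlib

set_option autoImplicit false

open MeasureTheory Filter Topology

namespace Pool.Agent.TH603.Chi

/-- the averaged exponential over `2 m + 1` points of an arithmetic progression of step `h` -/
noncomputable def D (m : ℕ) (h t : ℝ) : ℂ :=
  (1 / (2 * m + 1 : ℂ)) *
    ∑ j ∈ Finset.range (2 * m + 1), Complex.exp (Complex.I * (((((j : ℝ) - m) * h) * t : ℝ) : ℂ))

theorem norm_e (x : ℝ) : ‖Complex.exp (Complex.I * (x : ℂ))‖ = 1 := by
  rw [mul_comm]; exact Complex.norm_exp_ofReal_mul_I x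

theorem norm_inv (m : ℕ) : ‖(1 / (2 * m + 1 : ℂ))‖ = 1 / (2 * m + 1) := by
  have : (2 * m + 1 : ℂ) = ((2 * m + 1 : ℝ) : ℂ) := by push_cast; ring
  rw [this, norm_div, norm_one, Complex.norm_real, Real.norm_of_nonneg (by positivity)]

theorem D_le_one (m : ℕ) (h t : ℝ) : ‖D m h t‖ ≤ 1 := by
  unfold D
  rw [norm_mul, norm_inv]
  have h1 : ‖∑ j ∈ Finset.range (2 * m + 1),
      Complex.exp (Complex.I * (((((j : ℝ) - m) * h) * t : ℝ) : ℂ))‖ ≤ 2 * m + 1 := by
    refine (norm_sum_le _ _).trans ?_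
    simp only [norm_e]
    simp
  have h2 : (0 : ℝ) < 2 * m + 1 := by positivity
  calc 1 / (2 * (m : ℝ) + 1) * _ ≤ 1 / (2 * m + 1) * (2 * m + 1) := by gcongr
    _ = 1 := by field_simp

theorem D_sub_one (m : ℕ) {h t : ℝ} (hh : 0 ≤ h) : ‖D m h t - 1‖ ≤ m * h * |t| := by
  have h2 : (0 : ℝ) < 2 * m + 1 := by positivity
  have h3 : (2 * m + 1 : ℂ) ≠ 0 := by
    have : (2 * m + 1 : ℂ) = ((2 * m + 1 : ℕ) : ℂ) := by push_cast; ring
    rw [this]; exact Nat.cast_ne_zero.2 (by omega)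
  have e : D m h t - 1 = (1 / (2 * m + 1 : ℂ)) * ∑ j ∈ Finset.range (2 * m + 1),
      (Complex.exp (Complex.I * (((((j : ℝ) - m) * h) * t : ℝ) : ℂ)) - 1) := by
    rw [Finset.sum_sub_distrib]
    simp only [Finset.sum_const, Finset.card_range, nsmul_eq_mul, mul_one]
    unfold D
    rw [mul_sub]
    congr 1
    push_cast
    field_simp
  rw [e, norm_mul, norm_inv]
  have h1 : ‖∑ j ∈ Finset.range (2 * m + 1),
      (Complex.exp (Complex.I * (((((j : ℝ) - m) * h) * t : ℝ) : ℂ)) - 1)‖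
        ≤ (2 * m + 1) * (m * h * |t|) := by
    refine (norm_sum_le _ _).trans ?_
    have : ∀ j ∈ Finset.range (2 * m + 1),
        ‖Complex.exp (Complex.I * (((((j : ℝ) - m) * h) * t : ℝ) : ℂ)) - 1‖ ≤ m * h * |t| := by
      intro j hj
      refine Real.norm_exp_I_mul_ofReal_sub_one_le.trans ?_
      rw [Real.norm_eq_abs, abs_mul, abs_mul, abs_of_nonneg hh]
      have hj' : (j : ℝ) ≤ 2 * m := by
        have := Finset.mem_range.1 hj
        have h4 : j ≤ 2 * m := by omega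
        exact_mod_cast h4
      have : |(j : ℝ) - m| ≤ m := by
        rw [abs_le]; constructor
        · have : (0 : ℝ) ≤ j := Nat.cast_nonneg j
          linarith
        · linarith
      gcongr
    refine (Finset.sum_le_sum this).trans ?_
    simp
  calc 1 / (2 * (m : ℝ) + 1) * _ ≤ 1 / (2 * m + 1) * ((2 * m + 1) * (m * h * |t|)) := by gcongr
    _ = m * h * |t| := by field_simp

theorem D_decay (m : ℕ) {h t : ℝ} (hht : |h * t| ≤ Real.pi) :
    (2 * m + 1) * |h * t| * ‖D m h t‖ ≤ Real.pi := by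
  rcases eq_or_ne (h * t) 0 with h0 | h0
  · rw [h0]; simp [Real.pi_pos.le]
  have h2 : (0 : ℝ) < 2 * m + 1 := by positivity
  set z : ℂ := Complex.exp (Complex.I * ((h * t : ℝ) : ℂ)) with hz
  have hlow : 2 / Real.pi * |h * t| ≤ ‖z - 1‖ := by
    rw [hz, Complex.norm_exp_I_mul_ofReal_sub_one, Real.norm_eq_abs]
    generalize h * t = y at hht
    rw [abs_mul, abs_of_pos (by norm_num : (0 : ℝ) < 2)]
    have e2 : |y / 2| = |y| / 2 := by rw [abs_div, abs_of_pos (by norm_num : (0 : ℝ) < 2)]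
    have : |y / 2| ≤ Real.pi / 2 := by
      rw [e2]; linarith
    have h3 := Real.mul_abs_le_abs_sin this
    rw [e2] at h3
    calc 2 / Real.pi * |y| = 2 * (2 / Real.pi * (|y| / 2)) := by ring
      _ ≤ 2 * |Real.sin (y / 2)| := by linarith
  have hpos : 0 < |h * t| := abs_pos.2 h0
  have hz1 : z ≠ 1 := by
    intro h1
    rw [h1, sub_self, norm_zero] at hlow
    have hpi := Real.pi_pos
    have : 0 < 2 / Real.pi * |h * t| := by positivity
    linarith
  have hsum : (∑ j ∈ Finset.range (2 * m + 1),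
      Complex.exp (Complex.I * (((((j : ℝ) - m) * h) * t : ℝ) : ℂ)))
      = Complex.exp (Complex.I * ((-(m * (h * t)) : ℝ) : ℂ)) *
        ∑ j ∈ Finset.range (2 * m + 1), z ^ j := by
    rw [Finset.mul_sum]
    refine Finset.sum_congr rfl fun j _ => ?_
    rw [hz, ← Complex.exp_nat_mul, ← Complex.exp_add]
    congr 1
    push_cast
    ring
  have hgeom : ‖∑ j ∈ Finset.range (2 * m + 1), z ^ j‖ * ‖z - 1‖ ≤ 2 := by
    rw [← norm_mul, geom_sum_mul]
    refine (norm_sub_le _ _).trans ?_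
    rw [norm_pow, norm_e, one_pow, norm_one]
    norm_num
  have hD : ‖D m h t‖ = 1 / (2 * m + 1) * ‖∑ j ∈ Finset.range (2 * m + 1), z ^ j‖ := by
    unfold D
    rw [norm_mul, norm_inv, hsum, norm_mul, norm_e, one_mul]
  rw [hD]
  set S := ‖∑ j ∈ Finset.range (2 * m + 1), z ^ j‖ with hS
  have hS0 : 0 ≤ S := norm_nonneg _
  have : S * (2 / Real.pi * |h * t|) ≤ 2 := (mul_le_mul_of_nonneg_left hlow hS0).trans hgeom
  have hpi := Real.pi_pos
  calc (2 * (m : ℝ) + 1) * |h * t| * (1 / (2 * m + 1) * S) = Real.pi / 2 *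
        (S * (2 / Real.pi * |h * t|)) := by field_simp
    _ ≤ Real.pi / 2 * 2 := by gcongr
    _ = Real.pi := by ring

theorem D_period (m : ℕ) {h : ℝ} (hh : h ≠ 0) (t : ℝ) (r : ℤ) :
    D m h (t - r * (2 * Real.pi / h)) = D m h t := by
  unfold D
  congr 1
  refine Finset.sum_congr rfl fun j _ => ?_
  have : Complex.I * (((((j : ℝ) - m) * h) * (t - r * (2 * Real.pi / h)) : ℝ) : ℂ)
      = Complex.I * (((((j : ℝ) - m) * h) * t : ℝ) : ℂ) +
        ((-(((j : ℤ) - m) * r) : ℤ) : ℂ) * (2 * Real.pi * Complex.I) := by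
    have hh' : (h : ℂ) ≠ 0 := by exact_mod_cast hh
    push_cast
    field_simp
    ring
  rw [this, Complex.exp_add, Complex.exp_int_mul_two_pi_mul_I, mul_one]

/-- bounded increasing potential -/
noncomputable def Psi (u : ℝ) : ℝ := u / (1 + u)

theorem Psi_mono {u v : ℝ} (hv : 0 ≤ v) (h : v ≤ u) : Psi v ≤ Psi u := by
  unfold Psi
  rw [div_le_div_iff₀ (by linarith) (by linarith)]
  nlinarith

theorem Psi_le_one {u : ℝ} (hu : 0 ≤ u) : Psi u ≤ 1 := by
  unfold Psi
  rw [div_le_one (by linarith)]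
  linarith

theorem Q_bound {m m' : ℕ} {h t : ℝ} (hh : 0 ≤ h) (hht : |h * t| ≤ Real.pi)
    (hm : 3 * (2 * m' + 1) ≤ 2 * m + 1) :
    ‖D m h t - D m' h t‖ ≤ 17 * (Psi ((2 * m + 1) * |h * t|) - Psi ((2 * m' + 1) * |h * t|)) := by
  have hmR : 3 * (2 * (m' : ℝ) + 1) ≤ 2 * m + 1 := by exact_mod_cast hm
  have hw : 0 ≤ |h * t| := abs_nonneg _
  have d1 := D_le_one m h t
  have d1' := D_le_one m' h t
  have d2 := D_sub_one m (t := t) hh
  have d2' := D_sub_one m' (t := t) hh
  have d3 := D_decay m hht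
  have d3' := D_decay m' hht
  have e2 : (m : ℝ) * h * |t| = m * |h * t| := by rw [abs_mul, abs_of_nonneg hh]; ring
  have e2' : (m' : ℝ) * h * |t| = m' * |h * t| := by rw [abs_mul, abs_of_nonneg hh]; ring
  rw [e2] at d2
  rw [e2'] at d2'
  set w := |h * t| with hwdef
  set u := (2 * (m : ℝ) + 1) * w with hu
  set v := (2 * (m' : ℝ) + 1) * w with hv
  have hv0 : 0 ≤ v := by positivity
  have huv : 3 * v ≤ u := by
    rw [hu, hv, ← mul_assoc]; gcongr
  have b1 : ‖D m h t - D m' h t‖ ≤ 2 := (norm_sub_le _ _).trans (by linarith)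
  have b2 : ‖D m h t - D m' h t‖ ≤ 2 / 3 * u := by
    have : D m h t - D m' h t = (D m h t - 1) - (D m' h t - 1) := by ring
    rw [this]
    refine (norm_sub_le _ _).trans ?_
    have h1 : (m : ℝ) * w ≤ u / 2 := by rw [hu]; nlinarith
    have h2 : (m' : ℝ) * w ≤ v / 2 := by rw [hv]; nlinarith
    linarith
  have hP : Psi u - Psi v = (u - v) / ((1 + u) * (1 + v)) := by
    unfold Psi
    have : (1 + u) ≠ 0 := by linarith
    have : (1 + v) ≠ 0 := by linarith
    field_simp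
    ring
  rw [hP]
  have hu0 : 0 ≤ u := by linarith
  have hden : 0 < (1 + u) * (1 + v) := by positivity
  rw [← mul_div_assoc, le_div_iff₀ hden]
  rcases le_total u 1 with hu1 | hu1
  · calc ‖D m h t - D m' h t‖ * ((1 + u) * (1 + v)) ≤ 2 / 3 * u * ((1 + u) * (1 + v)) := by gcongr
      _ ≤ 2 / 3 * u * (2 * (4 / 3)) := by
          have : (1 + u) * (1 + v) ≤ 2 * (4 / 3) := by
            apply mul_le_mul <;> linarith
          gcongr
      _ ≤ 17 * (u - v) := by linarith
  · rcases le_total 1 v with hv1 | hv1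
    · have b3 : ‖D m h t - D m' h t‖ * v ≤ 4 / 3 * Real.pi := by
        have h1 : ‖D m h t - D m' h t‖ ≤ ‖D m h t‖ + ‖D m' h t‖ := norm_sub_le _ _
        have h2 : ‖D m h t‖ * v ≤ Real.pi / 3 := by
          have : ‖D m h t‖ * (3 * v) ≤ ‖D m h t‖ * u := by gcongr
          have h3 : ‖D m h t‖ * u ≤ Real.pi := by linarith [mul_comm ‖D m h t‖ u]
          linarith
        have h3 : ‖D m' h t‖ * v ≤ Real.pi := by linarith [mul_comm ‖D m' h t‖ v]
        nlinarith
      have hpi := Real.pi_lt_d2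
      have hb0 := norm_nonneg (D m h t - D m' h t)
      set q := ‖D m h t - D m' h t‖ with hq
      have hq2 : q * v ≤ 4.2 := by
        have : (4 : ℝ) / 3 * 3.15 = 4.2 := by norm_num
        linarith
      -- q (1+u)(1+v) ≤ q v * 2 (1+u) ≤ 8.4 (1+u) ≤ 17 (u - v)
      have h5 : q * (1 + v) ≤ 2 * (q * v) := by nlinarith
      have h6 : q * ((1 + u) * (1 + v)) ≤ 8.4 * (1 + u) := by
        have : q * ((1 + u) * (1 + v)) = (q * (1 + v)) * (1 + u) := by ring
        rw [this]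
        have : q * (1 + v) ≤ 8.4 := by linarith
        gcongr
      have h7 : 8.4 * (1 + u) ≤ 17 * (u - v) := by
        have : v ≤ u / 3 := by linarith
        have h8 : 3 ≤ u := by linarith
        linarith
      linarith
    · calc ‖D m h t - D m' h t‖ * ((1 + u) * (1 + v)) ≤ 2 * ((1 + u) * (1 + v)) := by gcongr
        _ ≤ 2 * ((2 * u) * 2) := by
            have : (1 + u) * (1 + v) ≤ (2 * u) * 2 := by
              apply mul_le_mul <;> linarith
            gcongr
        _ ≤ 17 * (u - v) := by linarith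

end Pool.Agent.TH603.Chi
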